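import Pool.Agent.E8helper55.DB.Stm

/-! Project DB, piece TAIL. -/

set_option autoImplicit false

namespace Pool.Agent.E8helper52.DB

open Finset Module
open Pool.Agent.Results.MP_db4732_co.PolynomialCertificates
open Pool.Agent.E8helper55.DB

variable {n : ℕ}

theorem z2_or (a b : ZMod 2) : a = b ∨ a = b + 1 := by
  revert a b; decide

theorem sum_choose (k s : ℕ) : ∑ i ∈ range (s + 1), (k + 1).choose i =
    ∑ i ∈ range s, k.choose i + ∑ i ∈ range (s + 1), k.choose i := by
  rw [sum_range_succ', sum_range_succ' (fun i => k.choose i)]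
  simp only [Nat.choose_succ_succ', Nat.choose_zero_right]
  rw [sum_add_distrib]
  ring

theorem good_lift {L : Finset (Finset (V n))} {C C₁ : Finset (V n)} {k : ℕ} {x : V n}
    (hsub : C₁ ⊆ C) (hc : 2 * C₁.card = C.card) (h : Good L C₁ k x) : Good L C (k + 1) x := by
  obtain ⟨C', h1, h2, h3, h4, h5⟩ := h
  refine ⟨C', h1.trans hsub, h2, h3, ?_, h5⟩
  rw [← hc, pow_succ]
  calc 2 * C₁.card ≤ 2 * (2 ^ k * C'.card) := Nat.mul_le_mul_left _ h4
    _ = 2 ^ k * 2 * C'.card := by ring

open Classical in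
theorem tail_holds {n : ℕ} (h1 : PSI n) (h2 : CORE n) : TAIL n := by
  intro L C hC k
  induction k generalizing C with
  | zero =>
    intro s hs
    by_cases hcase : ∀ B ∈ L, (C ∩ B) = ∅ ∨ (C \ B) = ∅
    · have hempty : (C.filter (fun x => ¬ Good L C 0 x)) = ∅ := by
        rw [filter_eq_empty_iff]
        intro x hx hng
        refine hng ⟨C, Subset.refl _, hC, hx, by simp, fun B hB => ?_⟩
        rcases hcase B hB with h | h
        · right; exact disjoint_iff_inter_eq_empty.2 h
        · left; exact sdiff_eq_empty_iff_subset.1 h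
      rw [hempty]
      simp
    · push Not at hcase
      obtain ⟨B₀, hB₀, hn1, hn2⟩ := hcase
      have hs0 : s ≠ 0 := by
        rintro rfl
        have h3 := (h1 C B₀ hC).2.1 hn1 hn2
        have h4 : Psi C B₀ ^ 2 - 1 ≤ ∑ B ∈ L, (Psi C B ^ 2 - 1) :=
          single_le_sum (f := fun B => Psi C B ^ 2 - 1) (fun B _ => by
            have := (h1 C B hC).1
            nlinarith) hB₀
        push_cast at hs
        nlinarith
      obtain ⟨s', rfl⟩ := Nat.exists_eq_succ_of_ne_zero hs0
      rw [pow_zero, mul_one]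
      have h5 : 1 ≤ ∑ i ∈ range s'.succ, (0 : ℕ).choose i := by
        rw [sum_range_succ']
        simp
      calc (C.filter (fun x => ¬ Good L C 0 x)).card ≤ C.card := card_filter_le _ _
        _ = C.card * 1 := (mul_one _).symm
        _ ≤ C.card * ∑ i ∈ range s'.succ, (0 : ℕ).choose i := Nat.mul_le_mul_left _ h5
  | succ k ih =>
    intro s hs
    by_cases hcase : ∀ B ∈ L, (C ∩ B) = ∅ ∨ (C \ B) = ∅
    · have hempty : (C.filter (fun x => ¬ Good L C (k + 1) x)) = ∅ := by
        rw [filter_eq_empty_iff]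
        intro x hx hng
        refine hng ⟨C, Subset.refl _, hC, hx, Nat.le_mul_of_pos_left _ (by positivity),
          fun B hB => ?_⟩
        rcases hcase B hB with h | h
        · right; exact disjoint_iff_inter_eq_empty.2 h
        · left; exact sdiff_eq_empty_iff_subset.1 h
      rw [hempty]
      simp
    · push Not at hcase
      obtain ⟨B₀, hB₀, hn1, hn2⟩ := hcase
      have hs0 : s ≠ 0 := by
        rintro rfl
        have h3 := (h1 C B₀ hC).2.1 hn1 hn2
        have h4 : Psi C B₀ ^ 2 - 1 ≤ ∑ B ∈ L, (Psi C B ^ 2 - 1) :=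
          single_le_sum (f := fun B => Psi C B ^ 2 - 1) (fun B _ => by
            have := (h1 C B hC).1
            nlinarith) hB₀
        push_cast at hs
        nlinarith
      obtain ⟨s', rfl⟩ := Nat.exists_eq_succ_of_ne_zero hs0
      obtain ⟨g, hg, b₀, hb₀⟩ := h2 C B₀ hC hn1 hn2
      have hterm : ∀ b : ZMod 2, ∀ B, Psi (half C g b) B ^ 2 ≤ Psi C B ^ 2 := by
        intro b B
        have e1 := (h1 (half C g b) B (hg b).1).1
        exact pow_le_pow_left₀ (by linarith) ((hg b).2.2 B) 2
      have hX : ∀ b : ZMod 2, ∑ B ∈ L, (Psi (half C g b) B ^ 2 - 1) ≤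
          ∑ B ∈ L, (Psi C B ^ 2 - 1) := fun b =>
        sum_le_sum fun B _ => by linarith [hterm b B]
      have hX0 : ∑ B ∈ L, (Psi (half C g b₀) B ^ 2 - 1) ≤
          ∑ B ∈ L, (Psi C B ^ 2 - 1) - 1 := by
        have e1 : Psi C B₀ ^ 2 - Psi (half C g b₀) B₀ ^ 2 ≤
            ∑ B ∈ L, (Psi C B ^ 2 - Psi (half C g b₀) B ^ 2) :=
          single_le_sum (f := fun B => Psi C B ^ 2 - Psi (half C g b₀) B ^ 2) (fun B _ => by
            linarith [hterm b₀ B]) hB₀
        rw [sum_sub_distrib] at e1
        rw [sum_sub_distrib, sum_sub_distrib]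
        linarith
      have hsub : ∀ b : ZMod 2, half C g b ⊆ C := fun b => filter_subset _ _
      have hi0 := ih (half C g b₀) (hg b₀).1 s' (by push_cast at hs; linarith)
      have hi1 := ih (half C g (b₀ + 1)) (hg (b₀ + 1)).1 (s' + 1) (by
        have := hX (b₀ + 1)
        push_cast at hs ⊢
        linarith)
      have hcov : (C.filter (fun x => ¬ Good L C (k + 1) x)) ⊆
          ((half C g b₀).filter (fun x => ¬ Good L (half C g b₀) k x)) ∪
          ((half C g (b₀ + 1)).filter (fun x => ¬ Good L (half C g (b₀ + 1)) k x)) := by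
        intro x hx
        rw [mem_filter] at hx
        obtain ⟨hxC, hng⟩ := hx
        rw [mem_union, mem_filter, mem_filter]
        rcases z2_or (g ⬝ᵥ x) b₀ with h | h
        · left
          refine ⟨mem_filter.2 ⟨hxC, h⟩, fun hG => hng (good_lift (hsub _) (hg _).2.1 hG)⟩
        · right
          refine ⟨mem_filter.2 ⟨hxC, h⟩, fun hG => hng (good_lift (hsub _) (hg _).2.1 hG)⟩
      have hcard := (card_le_card hcov).trans (card_union_le _ _)
      have hc0 := (hg b₀).2.1
      have hc1 := (hg (b₀ + 1)).2.1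
      rw [Nat.succ_eq_add_one, sum_choose]
      set x0 := ((half C g b₀).filter (fun x => ¬ Good L (half C g b₀) k x)).card with hx0
      set x1 := ((half C g (b₀ + 1)).filter (fun x => ¬ Good L (half C g (b₀ + 1)) k x)).card
        with hx1
      set T0 := ∑ i ∈ range s', k.choose i with hT0
      set T1 := ∑ i ∈ range (s' + 1), k.choose i with hT1
      calc (C.filter (fun x => ¬ Good L C (k + 1) x)).card * 2 ^ (k + 1)
          ≤ (x0 + x1) * 2 ^ (k + 1) := Nat.mul_le_mul_right _ hcard
        _ = 2 * (x0 * 2 ^ k) + 2 * (x1 * 2 ^ k) := by rw [pow_succ]; ring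
        _ ≤ 2 * ((half C g b₀).card * T0) + 2 * ((half C g (b₀ + 1)).card * T1) :=
            Nat.add_le_add (Nat.mul_le_mul_left _ hi0) (Nat.mul_le_mul_left _ hi1)
        _ = (2 * (half C g b₀).card) * T0 + (2 * (half C g (b₀ + 1)).card) * T1 := by ring
        _ = C.card * (T0 + T1) := by rw [hc0, hc1]; ring

end Pool.Agent.E8helper52.DB
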